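import Pool.Agent.Helper26.PW.MorKin

set_option autoImplicit false

namespace Pool.Agent.Helper26.PW

open MeasureTheory Filter
open Pool.Agent.Helper95.PW

/-- continuous compactly supported functions are bounded -/
theorem er_bd {g : R3 → ℝ} (hg : Continuous g) (hc : HasCompactSupport g) :
    ∃ B : ℝ, 0 ≤ B ∧ ∀ y, |g y| ≤ B := by
  obtain ⟨B, hB⟩ := hc.exists_bound_of_continuous hg
  exact ⟨|B|, abs_nonneg B, fun y => (hB y).trans (le_abs_self B)⟩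

theorem er_cs_pd {g : R3 → ℝ} (hc : HasCompactSupport g) (i : Fin 3) :
    HasCompactSupport (pd i g) := by
  have h := hc.fderiv (𝕜 := ℝ)
  exact h.comp_left (g := fun L : (R3 →L[ℝ] ℝ) => L (Pi.single i 1)) (by simp)

theorem er_cs_lap {g : R3 → ℝ} (hc : HasCompactSupport g) : HasCompactSupport (lap g) := by
  have h : lap g = fun y => ∑ i, pd i (pd i g) y := rfl
  rw [h]
  refine HasCompactSupport.intro' (K := tsupport g) hc (isClosed_tsupport g) fun y hy => ?_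
  refine Finset.sum_eq_zero fun i _ => ?_
  have h1 : y ∉ tsupport (pd i g) := fun h => hy (tsupport_fderiv_subset ℝ (by
    refine closure_mono ?_ h
    intro z hz hz2
    exact hz (by
      show fderiv ℝ g z _ = 0
      rw [hz2]
      rfl)))
  have h2 : fderiv ℝ (pd i g) y = 0 := by
    by_contra h3
    exact h1 (support_fderiv_subset ℝ h3)
  show fderiv ℝ (pd i g) y _ = 0
  rw [h2]
  rfl

/-- all bounds at once -/
theorem er_bounds {g : R3 → ℝ} (hg : ContDiff ℝ (⊤ : ℕ∞) g) (hc : HasCompactSupport g) :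
    ∃ B : ℝ, 0 ≤ B ∧ (∀ y, |g y| ≤ B) ∧ (∀ i y, |pd i g y| ≤ B) ∧ (∀ y, |lap g y / 2| ≤ B) ∧
      (∀ i j y, |pd i (pd j g) y| ≤ B) ∧ ∀ i y, |pd i (lap g) y / 2| ≤ B := by
  have cg := hg.continuous
  have cp : ∀ i, Continuous (pd i g) := fun i => (Pool.Agent.Helper2.PW.stb_pd i hg).continuous
  have hl := Pool.Agent.Helper2.PW.stb_lap hg
  have cpp : ∀ i j, Continuous (pd i (pd j g)) := fun i j =>
    (Pool.Agent.Helper2.PW.stb_pd i (Pool.Agent.Helper2.PW.stb_pd j hg)).continuous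
  have cpl : ∀ i, Continuous (pd i (lap g)) := fun i =>
    (Pool.Agent.Helper2.PW.stb_pd i hl).continuous
  obtain ⟨B0, b0, h0⟩ := er_bd cg hc
  have e1 : ∀ i, ∃ B : ℝ, 0 ≤ B ∧ ∀ y, |pd i g y| ≤ B := fun i => er_bd (cp i) (er_cs_pd hc i)
  choose B1 b1 h1 using e1
  obtain ⟨B2, b2, h2⟩ := er_bd hl.continuous (er_cs_lap hc)
  have e3 : ∀ i j, ∃ B : ℝ, 0 ≤ B ∧ ∀ y, |pd i (pd j g) y| ≤ B := fun i j =>
    er_bd (cpp i j) (er_cs_pd (er_cs_pd hc j) i)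
  choose B3 b3 h3 using e3
  have e4 : ∀ i, ∃ B : ℝ, 0 ≤ B ∧ ∀ y, |pd i (lap g) y| ≤ B := fun i =>
    er_bd (cpl i) (er_cs_pd (er_cs_lap hc) i)
  choose B4 b4 h4 using e4
  have s1 : ∀ i, B1 i ≤ ∑ i, B1 i := fun i =>
    Finset.single_le_sum (f := B1) (fun j _ => b1 j) (Finset.mem_univ i)
  have s3 : ∀ i j, B3 i j ≤ ∑ i, ∑ j, B3 i j := fun i j =>
    (Finset.single_le_sum (f := B3 i) (fun j _ => b3 i j) (Finset.mem_univ j)).trans
      (Finset.single_le_sum (f := fun i => ∑ j, B3 i j)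
        (fun i _ => Finset.sum_nonneg fun j _ => b3 i j) (Finset.mem_univ i))
  have s4 : ∀ i, B4 i ≤ ∑ i, B4 i := fun i =>
    Finset.single_le_sum (f := B4) (fun j _ => b4 j) (Finset.mem_univ i)
  have n1 : 0 ≤ ∑ i, B1 i := Finset.sum_nonneg fun j _ => b1 j
  have n3 : 0 ≤ ∑ i, ∑ j, B3 i j := Finset.sum_nonneg fun i _ => Finset.sum_nonneg fun j _ => b3 i j
  have n4 : 0 ≤ ∑ i, B4 i := Finset.sum_nonneg fun j _ => b4 j
  refine ⟨B0 + (∑ i, B1 i) + B2 + (∑ i, ∑ j, B3 i j) + ∑ i, B4 i, by positivity,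
    fun y => ?_, fun i y => ?_, fun y => ?_, fun i j y => ?_, fun i y => ?_⟩
  · linarith [h0 y]
  · linarith [h1 i y, s1 i]
  · rw [abs_div, abs_two]
    linarith [h2 y, abs_nonneg (lap g y)]
  · linarith [h3 i j y, s3 i j]
  · rw [abs_div, abs_two]
    linarith [h4 i y, s4 i, abs_nonneg (pd i (lap g) y)]

theorem er_sqle {a B t : ℝ} (h : |a| ≤ B) : (a * t) ^ 2 ≤ B ^ 2 * t ^ 2 := by
  rw [mul_pow]
  apply mul_le_mul_of_nonneg_right _ (sq_nonneg t)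
  rw [← sq_abs a]
  exact pow_le_pow_left₀ (abs_nonneg a) h 2

/-- pointwise bound of `P_g` -/
theorem er_P {n : ℕ} {g : R3 → ℝ} {B : ℝ} (hB : 0 ≤ B) (h1 : ∀ i y, |pd i g y| ≤ B)
    (h2 : ∀ y, |lap g y / 2| ≤ B) (v : Cf n → ℝ) (x : Cf n) :
    (Pg g v x) ^ 2 ≤ 4 * n * B ^ 2 * ((∑ k, ∑ i, dv k i v x ^ 2) + n * v x ^ 2) := by
  have e1 : (Pg g v x) ^ 2 ≤ n * ∑ k : Fin n, ((∑ i, pd i g (x k) * dv k i v x) +
      lap g (x k) / 2 * v x) ^ 2 := by
    have h := sq_sum_le_card_mul_sum_sq (s := (Finset.univ : Finset (Fin n)))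
      (f := fun k => (∑ i, pd i g (x k) * dv k i v x) + lap g (x k) / 2 * v x)
    rw [Finset.card_univ, Fintype.card_fin] at h
    exact h
  have e2 : ∀ k : Fin n, ((∑ i, pd i g (x k) * dv k i v x) + lap g (x k) / 2 * v x) ^ 2 ≤
      4 * B ^ 2 * ((∑ i, dv k i v x ^ 2) + v x ^ 2) := by
    intro k
    have t0 := er_sqle (t := dv k 0 v x) (h1 0 (x k))
    have t1 := er_sqle (t := dv k 1 v x) (h1 1 (x k))
    have t2 := er_sqle (t := dv k 2 v x) (h1 2 (x k))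
    have t3 := er_sqle (t := v x) (h2 (x k))
    rw [Fin.sum_univ_three, Fin.sum_univ_three]
    nlinarith [sq_nonneg (pd 0 g (x k) * dv k 0 v x - pd 1 g (x k) * dv k 1 v x),
      sq_nonneg (pd 0 g (x k) * dv k 0 v x - pd 2 g (x k) * dv k 2 v x),
      sq_nonneg (pd 1 g (x k) * dv k 1 v x - pd 2 g (x k) * dv k 2 v x),
      sq_nonneg (pd 0 g (x k) * dv k 0 v x - lap g (x k) / 2 * v x),
      sq_nonneg (pd 1 g (x k) * dv k 1 v x - lap g (x k) / 2 * v x),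
      sq_nonneg (pd 2 g (x k) * dv k 2 v x - lap g (x k) / 2 * v x)]
  have e3 : ∑ k : Fin n, ((∑ i, pd i g (x k) * dv k i v x) + lap g (x k) / 2 * v x) ^ 2 ≤
      4 * B ^ 2 * ((∑ k, ∑ i, dv k i v x ^ 2) + n * v x ^ 2) := by
    refine (Finset.sum_le_sum fun k _ => e2 k).trans (le_of_eq ?_)
    rw [← Finset.mul_sum, Finset.sum_add_distrib]
    simp
  calc (Pg g v x) ^ 2 ≤ _ := e1
    _ ≤ n * (4 * B ^ 2 * ((∑ k, ∑ i, dv k i v x ^ 2) + n * v x ^ 2)) :=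
      mul_le_mul_of_nonneg_left e3 (Nat.cast_nonneg n)
    _ = _ := by ring

theorem er_F {n : ℕ} {g : R3 → ℝ} {B : ℝ} (hB : 0 ≤ B) (h0 : ∀ y, |g y| ≤ B) (v : Cf n → ℝ)
    (x : Cf n) : (Fg g v x) ^ 2 ≤ (n * B) ^ 2 * v x ^ 2 := by
  have h : |∑ k, g (x k)| ≤ n * B := by
    refine (Finset.abs_sum_le_sum_abs _ _).trans ?_
    refine (Finset.sum_le_sum fun k _ => h0 (x k)).trans (le_of_eq ?_)
    simp
  exact er_sqle h

/-- pointwise bound of the derivatives of `P_g v` -/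
theorem er_dP {n : ℕ} {g : R3 → ℝ} (hg : ContDiff ℝ (⊤ : ℕ∞) g) {B : ℝ} (hB : 0 ≤ B)
    (h1 : ∀ i y, |pd i g y| ≤ B) (h2 : ∀ y, |lap g y / 2| ≤ B)
    (h3 : ∀ i j y, |pd i (pd j g) y| ≤ B) (h4 : ∀ i y, |pd i (lap g) y / 2| ≤ B)
    (v : Cf n → ℝ) (hv : ContDiff ℝ (⊤ : ℕ∞) v) (k : Fin n) (i : Fin 3) (x : Cf n) :
    (dv k i (Pg g v) x) ^ 2 ≤
      8 * n * B ^ 2 * ((∑ l, ∑ m, dv l m (dv k i v) x ^ 2) + n * dv k i v x ^ 2) +
        8 * B ^ 2 * ((∑ j, dv k j v x ^ 2) + v x ^ 2) := by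
  rw [mk_dP g hg v hv k i x]
  have e1 := er_P hB h1 h2 (dv k i v) x
  have e2 : ((∑ j, pd i (pd j g) (x k) * dv k j v x) + pd i (lap g) (x k) / 2 * v x) ^ 2 ≤
      4 * B ^ 2 * ((∑ j, dv k j v x ^ 2) + v x ^ 2) := by
    have t0 := er_sqle (t := dv k 0 v x) (h3 i 0 (x k))
    have t1 := er_sqle (t := dv k 1 v x) (h3 i 1 (x k))
    have t2 := er_sqle (t := dv k 2 v x) (h3 i 2 (x k))
    have t3 := er_sqle (t := v x) (h4 i (x k))
    rw [Fin.sum_univ_three, Fin.sum_univ_three]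
    nlinarith [sq_nonneg (pd i (pd 0 g) (x k) * dv k 0 v x - pd i (pd 1 g) (x k) * dv k 1 v x),
      sq_nonneg (pd i (pd 0 g) (x k) * dv k 0 v x - pd i (pd 2 g) (x k) * dv k 2 v x),
      sq_nonneg (pd i (pd 1 g) (x k) * dv k 1 v x - pd i (pd 2 g) (x k) * dv k 2 v x),
      sq_nonneg (pd i (pd 0 g) (x k) * dv k 0 v x - pd i (lap g) (x k) / 2 * v x),
      sq_nonneg (pd i (pd 1 g) (x k) * dv k 1 v x - pd i (lap g) (x k) / 2 * v x),
      sq_nonneg (pd i (pd 2 g) (x k) * dv k 2 v x - pd i (lap g) (x k) / 2 * v x)]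
  nlinarith [sq_nonneg (Pg g (dv k i v) x - ((∑ j, pd i (pd j g) (x k) * dv k j v x) +
    pd i (lap g) (x k) / 2 * v x))]

/-- pointwise bound of `P_g P_g v` -/
theorem er_PP {n : ℕ} {g : R3 → ℝ} (hg : ContDiff ℝ (⊤ : ℕ∞) g) {B : ℝ} (hB : 0 ≤ B)
    (h1 : ∀ i y, |pd i g y| ≤ B) (h2 : ∀ y, |lap g y / 2| ≤ B)
    (h3 : ∀ i j y, |pd i (pd j g) y| ≤ B) (h4 : ∀ i y, |pd i (lap g) y / 2| ≤ B)
    (v : Cf n → ℝ) (hv : ContDiff ℝ (⊤ : ℕ∞) v) (x : Cf n) :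
    (Pg g (Pg g v) x) ^ 2 ≤ 4 * n * B ^ 2 *
      (8 * n * B ^ 2 * ((∑ k, ∑ i, ∑ l, ∑ m, dv k i (dv l m v) x ^ 2) +
          n * ∑ k, ∑ i, dv k i v x ^ 2) +
        24 * B ^ 2 * ((∑ k, ∑ i, dv k i v x ^ 2) + n * v x ^ 2) +
        n * (4 * n * B ^ 2 * ((∑ k, ∑ i, dv k i v x ^ 2) + n * v x ^ 2))) := by
  refine (er_P hB h1 h2 (Pg g v) x).trans ?_
  apply mul_le_mul_of_nonneg_left _ (by positivity)
  apply add_le_add
  · have e1 : ∀ (k : Fin n) (i : Fin 3), (dv k i (Pg g v) x) ^ 2 ≤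
        8 * n * B ^ 2 * ((∑ l, ∑ m, dv k i (dv l m v) x ^ 2) + n * dv k i v x ^ 2) +
          8 * B ^ 2 * ((∑ j, dv k j v x ^ 2) + v x ^ 2) := by
      intro k i
      have h := er_dP hg hB h1 h2 h3 h4 v hv k i x
      have h' : ∑ l, ∑ m, dv l m (dv k i v) x ^ 2 = ∑ l, ∑ m, dv k i (dv l m v) x ^ 2 := by
        refine Finset.sum_congr rfl fun l _ => Finset.sum_congr rfl fun m _ => ?_
        rw [mk_comm l k m i hv x]
      rw [h'] at h
      exact h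
    refine (Finset.sum_le_sum fun k _ => Finset.sum_le_sum fun i _ => e1 k i).trans
      (le_of_eq ?_)
    have e2 : ∀ k : Fin n, ∑ i : Fin 3,
        (8 * n * B ^ 2 * ((∑ l, ∑ m, dv k i (dv l m v) x ^ 2) + n * dv k i v x ^ 2) +
          8 * B ^ 2 * ((∑ j, dv k j v x ^ 2) + v x ^ 2)) =
        8 * n * B ^ 2 * ((∑ i, ∑ l, ∑ m, dv k i (dv l m v) x ^ 2) + n * ∑ i, dv k i v x ^ 2) +
          24 * B ^ 2 * ((∑ i, dv k i v x ^ 2) + v x ^ 2) := by
      intro k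
      rw [Finset.sum_add_distrib, ← Finset.mul_sum, Finset.sum_add_distrib, ← Finset.mul_sum]
      simp
      ring
    rw [Finset.sum_congr rfl fun k _ => e2 k, Finset.sum_add_distrib, ← Finset.mul_sum,
      ← Finset.mul_sum, Finset.sum_add_distrib, ← Finset.mul_sum, Finset.sum_add_distrib]
    simp
  · exact mul_le_mul_of_nonneg_left (er_P hB h1 h2 v x) (Nat.cast_nonneg n)

theorem er_isq {n : ℕ} {v : Cf n → ℝ} (hv : ContDiff ℝ (⊤ : ℕ∞) v) (hc : HasCompactSupport v) :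
    Integrable (fun x => v x ^ 2) := by
  have h : (fun x => v x ^ 2) = fun x => v x * v x := by
    funext x
    ring
  rw [h]
  exact (hv.continuous.mul hv.continuous).integrable_of_hasCompactSupport hc.mul_left

/-- from pointwise bounds to bounds of the norms -/
theorem er_norm {n : ℕ} (u W : Wf n) (hu : Sm u) (a b c : ℝ)
    (h : ∀ s x, (W s x) ^ 2 ≤ a * (∑ k, ∑ i, ∑ l, ∑ m, dv k i (dv l m (u s)) x ^ 2) +
      b * (∑ k, ∑ i, dv k i (u s) x ^ 2) + c * u s x ^ 2) :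
    Pool.Agent.Helper95.PW.sq W ≤ a * dd u + b * kin u +
      c * Pool.Agent.Helper95.PW.sq u := by
  have i0 : ∀ s, Integrable (fun x => u s x ^ 2) := fun s => er_isq (hu s).1 (hu s).2
  have i1 : ∀ s k i, Integrable (fun x => dv k i (u s) x ^ 2) := fun s k i =>
    er_isq (hf_cd (hu s).1 _) (Pool.Agent.Helper2.PW.stb_cs_dv k i (hu s).2)
  have i2 : ∀ s k i l m, Integrable (fun x => dv k i (dv l m (u s)) x ^ 2) := fun s k i l m =>
    er_isq (hf_cd (hf_cd (hu s).1 _) _)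
      (Pool.Agent.Helper2.PW.stb_cs_dv k i (Pool.Agent.Helper2.PW.stb_cs_dv l m (hu s).2))
  have j1 : ∀ s, Integrable (fun x => ∑ k, ∑ i, dv k i (u s) x ^ 2) := fun s =>
    integrable_finsetSum _ fun k _ => integrable_finsetSum _ fun i _ => i1 s k i
  have j2 : ∀ s, Integrable (fun x => ∑ k, ∑ i, ∑ l, ∑ m, dv k i (dv l m (u s)) x ^ 2) := fun s =>
    integrable_finsetSum _ fun k _ => integrable_finsetSum _ fun i _ =>
      integrable_finsetSum _ fun l _ => integrable_finsetSum _ fun m _ => i2 s k i l m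
  have e1 : ∀ s, ∫ x, (W s x) ^ 2 ≤
      a * (∑ k, ∑ i, ∑ l, ∑ m, ∫ x, dv k i (dv l m (u s)) x ^ 2) +
      b * (∑ k, ∑ i, ∫ x, dv k i (u s) x ^ 2) + c * ∫ x, u s x ^ 2 := by
    intro s
    have h1 : ∫ x, (W s x) ^ 2 ≤ ∫ x, (a * (∑ k, ∑ i, ∑ l, ∑ m, dv k i (dv l m (u s)) x ^ 2) +
        b * (∑ k, ∑ i, dv k i (u s) x ^ 2) + c * u s x ^ 2) :=
      integral_mono_of_nonneg (Eventually.of_forall fun x => sq_nonneg _)
        ((((j2 s).const_mul a).add ((j1 s).const_mul b)).add ((i0 s).const_mul c))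
        (Eventually.of_forall fun x => h s x)
    refine h1.trans (le_of_eq ?_)
    have h2 : ∫ x, (a * (∑ k, ∑ i, ∑ l, ∑ m, dv k i (dv l m (u s)) x ^ 2) +
        b * (∑ k, ∑ i, dv k i (u s) x ^ 2) + c * u s x ^ 2) =
        (∫ x, a * (∑ k, ∑ i, ∑ l, ∑ m, dv k i (dv l m (u s)) x ^ 2)) +
        (∫ x, b * (∑ k, ∑ i, dv k i (u s) x ^ 2)) + ∫ x, c * u s x ^ 2 :=
      (integral_add (((j2 s).const_mul a).add ((j1 s).const_mul b)) ((i0 s).const_mul c)).trans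
        (congrArg (· + ∫ x, c * u s x ^ 2) (integral_add ((j2 s).const_mul a)
          ((j1 s).const_mul b)))
    rw [h2, integral_const_mul, integral_const_mul, integral_const_mul,
      integral_finsetSum _ (fun k _ => integrable_finsetSum _ fun i _ => i1 s k i),
      integral_finsetSum _ (fun k _ => integrable_finsetSum _ fun i _ =>
      integrable_finsetSum _ fun l _ => integrable_finsetSum _ fun m _ => i2 s k i l m)]
    congr 1
    congr 1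
    · congr 1
      refine Finset.sum_congr rfl fun k _ => ?_
      rw [integral_finsetSum _ (fun i _ => integrable_finsetSum _ fun l _ =>
        integrable_finsetSum _ fun m _ => i2 s k i l m)]
      refine Finset.sum_congr rfl fun i _ => ?_
      rw [integral_finsetSum _ (fun l _ => integrable_finsetSum _ fun m _ => i2 s k i l m)]
      refine Finset.sum_congr rfl fun l _ => ?_
      rw [integral_finsetSum _ (fun m _ => i2 s k i l m)]
    · congr 1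
      refine Finset.sum_congr rfl fun k _ => ?_
      rw [integral_finsetSum _ (fun i _ => i1 s k i)]
  unfold Pool.Agent.Helper95.PW.sq kin dd
  refine (Finset.sum_le_sum fun s _ => e1 s).trans (le_of_eq ?_)
  rw [Finset.sum_add_distrib, Finset.sum_add_distrib, ← Finset.mul_sum, ← Finset.mul_sum,
    ← Finset.mul_sum]
  congr 1
  congr 1
  · congr 1
    unfold Pool.Agent.Helper95.PW.sq
    rw [Finset.sum_comm]
    refine Finset.sum_congr rfl fun k _ => ?_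
    rw [Finset.sum_comm]
    refine Finset.sum_congr rfl fun i _ => ?_
    rw [Finset.sum_comm]
    refine Finset.sum_congr rfl fun l _ => ?_
    rw [Finset.sum_comm]
  · congr 1
    unfold Pool.Agent.Helper95.PW.sq
    rw [Finset.sum_comm]
    refine Finset.sum_congr rfl fun k _ => ?_
    rw [Finset.sum_comm]

theorem er_nn {n : ℕ} (u : Wf n) : 0 ≤ Pool.Agent.Helper95.PW.sq u ∧ 0 ≤ kin u ∧ 0 ≤ dd u := by
  have h : ∀ v : Wf n, 0 ≤ Pool.Agent.Helper95.PW.sq v := fun v =>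
    Finset.sum_nonneg fun s _ => integral_nonneg fun x => sq_nonneg _
  exact ⟨h u, Finset.sum_nonneg fun k _ => Finset.sum_nonneg fun i _ => h _,
    Finset.sum_nonneg fun k _ => Finset.sum_nonneg fun i _ => Finset.sum_nonneg fun l _ =>
      Finset.sum_nonneg fun m _ => h _⟩

/-- row ERR -/
theorem st_ERR : ST_ERR := by
  intro n g hg hc
  obtain ⟨B, hB, h0, h1, h2, h3, h4⟩ := er_bounds hg hc
  let N : ℝ := n
  have hN : 0 ≤ N := Nat.cast_nonneg n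
  let C1 : ℝ := (N * B) ^ 2 * (N * B) ^ 2
  let C2 : ℝ := 4 * N * B ^ 2 * (1 + N)
  let C3 : ℝ := (N * B) ^ 2 * C2
  let C4 : ℝ := 4 * N * B ^ 2 * (8 * N * B ^ 2 * (1 + N) + 24 * B ^ 2 * (1 + N) +
    N * (4 * N * B ^ 2 * (1 + N)))
  have c1 : 0 ≤ C1 := by positivity
  have c2 : 0 ≤ C2 := by positivity
  have c3 : 0 ≤ C3 := by positivity
  have c4 : 0 ≤ C4 := by positivity
  refine ⟨C1 + C2 + C3 + C4 + 1, by positivity, fun u hu => ?_⟩
  obtain ⟨p0, p1, p2⟩ := er_nn u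
  refine ⟨?_, ?_, ?_, ?_⟩
  · have h := er_norm u (fun s => Fg g (Fg g (u s))) hu 0 0 C1 (fun s x => by
      have q1 := er_F hB h0 (Fg g (u s)) x
      have q2 := er_F hB h0 (u s) x
      have q3 := mul_le_mul_of_nonneg_left q2 (sq_nonneg ((n : ℝ) * B))
      show _ ≤ 0 * _ + 0 * _ + (N * B) ^ 2 * (N * B) ^ 2 * u s x ^ 2
      calc (Fg g (Fg g (u s)) x) ^ 2 ≤ _ := q1
        _ ≤ _ := q3
        _ = _ := by ring)
    nlinarith
  · have h := er_norm u (fun s => Pg g (u s)) hu 0 (4 * N * B ^ 2) (4 * N * B ^ 2 * N)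
      (fun s x => by
      have q1 := er_P hB h1 h2 (u s) x
      show _ ≤ 0 * _ + 4 * (n : ℝ) * B ^ 2 * _ + 4 * (n : ℝ) * B ^ 2 * n * _
      linarith)
    have t1 : 4 * N * B ^ 2 ≤ C2 := by
      show 4 * N * B ^ 2 ≤ 4 * N * B ^ 2 * (1 + N)
      have : 0 ≤ 4 * N * B ^ 2 * N := by positivity
      linarith
    have t2 : 4 * N * B ^ 2 * N ≤ C2 := by
      show 4 * N * B ^ 2 * N ≤ 4 * N * B ^ 2 * (1 + N)
      have : 0 ≤ 4 * N * B ^ 2 := by positivity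
      linarith
    have t3 := mul_le_mul_of_nonneg_right t1 p1
    have t4 := mul_le_mul_of_nonneg_right t2 p0
    nlinarith [mul_nonneg c1 (add_nonneg p1 p0), mul_nonneg c3 (add_nonneg p1 p0),
      mul_nonneg c4 (add_nonneg p1 p0)]
  · have h := er_norm u (fun s => Fg g (Pg g (u s))) hu 0 ((N * B) ^ 2 * (4 * N * B ^ 2))
      ((N * B) ^ 2 * (4 * N * B ^ 2 * N)) (fun s x => by
      have q1 := er_F hB h0 (Pg g (u s)) x
      have q2 := er_P hB h1 h2 (u s) x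
      have q3 := mul_le_mul_of_nonneg_left q2 (sq_nonneg ((n : ℝ) * B))
      show _ ≤ 0 * _ + ((n : ℝ) * B) ^ 2 * (4 * (n : ℝ) * B ^ 2) * _ +
        ((n : ℝ) * B) ^ 2 * (4 * (n : ℝ) * B ^ 2 * n) * _
      calc (Fg g (Pg g (u s)) x) ^ 2 ≤ _ := q1
        _ ≤ _ := q3
        _ = _ := by ring)
    have t1 : (N * B) ^ 2 * (4 * N * B ^ 2) ≤ C3 := by
      show (N * B) ^ 2 * (4 * N * B ^ 2) ≤ (N * B) ^ 2 * (4 * N * B ^ 2 * (1 + N))
      have : 0 ≤ (N * B) ^ 2 * (4 * N * B ^ 2 * N) := by positivity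
      linarith
    have t2 : (N * B) ^ 2 * (4 * N * B ^ 2 * N) ≤ C3 := by
      show (N * B) ^ 2 * (4 * N * B ^ 2 * N) ≤ (N * B) ^ 2 * (4 * N * B ^ 2 * (1 + N))
      have : 0 ≤ (N * B) ^ 2 * (4 * N * B ^ 2) := by positivity
      linarith
    have t3 := mul_le_mul_of_nonneg_right t1 p1
    have t4 := mul_le_mul_of_nonneg_right t2 p0
    nlinarith [mul_nonneg c1 (add_nonneg p1 p0), mul_nonneg c2 (add_nonneg p1 p0),
      mul_nonneg c4 (add_nonneg p1 p0)]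
  · have h := er_norm u (fun s => Pg g (Pg g (u s))) hu
      (4 * N * B ^ 2 * (8 * N * B ^ 2))
      (4 * N * B ^ 2 * (8 * N * B ^ 2 * N + 24 * B ^ 2 + N * (4 * N * B ^ 2)))
      (4 * N * B ^ 2 * (24 * B ^ 2 * N + N * (4 * N * B ^ 2 * N))) (fun s x => by
      have q1 := er_PP hg hB h1 h2 h3 h4 (u s) (hu s).1 x
      show _ ≤ 4 * (n : ℝ) * B ^ 2 * (8 * n * B ^ 2) * _ +
        4 * (n : ℝ) * B ^ 2 * (8 * n * B ^ 2 * n + 24 * B ^ 2 + n * (4 * n * B ^ 2)) * _ +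
        4 * (n : ℝ) * B ^ 2 * (24 * B ^ 2 * n + n * (4 * n * B ^ 2 * n)) * _
      calc (Pg g (Pg g (u s)) x) ^ 2 ≤ _ := q1
        _ = _ := by ring)
    have t1 : 4 * N * B ^ 2 * (8 * N * B ^ 2) ≤ C4 := by
      have e : C4 = 4 * N * B ^ 2 * (8 * N * B ^ 2) + 4 * N * B ^ 2 * (8 * N * B ^ 2 * N +
        24 * B ^ 2 * (1 + N) + N * (4 * N * B ^ 2 * (1 + N))) := by
        show 4 * N * B ^ 2 * (8 * N * B ^ 2 * (1 + N) + 24 * B ^ 2 * (1 + N) +
          N * (4 * N * B ^ 2 * (1 + N))) = _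
        ring
      rw [e]
      have : 0 ≤ 4 * N * B ^ 2 * (8 * N * B ^ 2 * N +
        24 * B ^ 2 * (1 + N) + N * (4 * N * B ^ 2 * (1 + N))) := by positivity
      linarith
    have t2 : 4 * N * B ^ 2 * (8 * N * B ^ 2 * N + 24 * B ^ 2 + N * (4 * N * B ^ 2)) ≤ C4 := by
      have e : C4 = 4 * N * B ^ 2 * (8 * N * B ^ 2 * N + 24 * B ^ 2 + N * (4 * N * B ^ 2)) +
        4 * N * B ^ 2 * (8 * N * B ^ 2 + 24 * B ^ 2 * N + N * (4 * N * B ^ 2 * N)) := by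
        show 4 * N * B ^ 2 * (8 * N * B ^ 2 * (1 + N) + 24 * B ^ 2 * (1 + N) +
          N * (4 * N * B ^ 2 * (1 + N))) = _
        ring
      rw [e]
      have : 0 ≤ 4 * N * B ^ 2 * (8 * N * B ^ 2 + 24 * B ^ 2 * N + N * (4 * N * B ^ 2 * N)) := by
        positivity
      linarith
    have t3 : 4 * N * B ^ 2 * (24 * B ^ 2 * N + N * (4 * N * B ^ 2 * N)) ≤ C4 := by
      have e : C4 = 4 * N * B ^ 2 * (24 * B ^ 2 * N + N * (4 * N * B ^ 2 * N)) +
        4 * N * B ^ 2 * (8 * N * B ^ 2 * (1 + N) + 24 * B ^ 2 + N * (4 * N * B ^ 2)) := by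
        show 4 * N * B ^ 2 * (8 * N * B ^ 2 * (1 + N) + 24 * B ^ 2 * (1 + N) +
          N * (4 * N * B ^ 2 * (1 + N))) = _
        ring
      rw [e]
      have : 0 ≤ 4 * N * B ^ 2 * (8 * N * B ^ 2 * (1 + N) + 24 * B ^ 2 + N * (4 * N * B ^ 2)) := by
        positivity
      linarith
    have s1 := mul_le_mul_of_nonneg_right t1 p2
    have s2 := mul_le_mul_of_nonneg_right t2 p1
    have s3 := mul_le_mul_of_nonneg_right t3 p0
    have p3 : 0 ≤ dd u + kin u + Pool.Agent.Helper95.PW.sq u := by linarith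
    nlinarith [mul_nonneg c1 p3, mul_nonneg c2 p3, mul_nonneg c3 p3]

end Pool.Agent.Helper26.PW
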