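import Pool.Agent.Helper95.PW.Stmts
import Pool.Agent.Helper77.PW.HF
import Pool.Agent.Helper2.PW.STB
import Pool.Agent.Helper2.PW.IBP

/-!
# The kinetic part of the Morawetz identity

`-2 ∫ Δv P_g v = 2 ∑ ∫ D^2 g (∇_k v, ∇_k v) - (1/2) ∫ ∑ Δ^2 g(x_k) v^2`, and the case
`g = sqrt (|y|^2 + s^2)`.
-/

set_option autoImplicit false

namespace Pool.Agent.Helper26.PW

open MeasureTheory Filter
open Pool.Agent.Helper95.PW

/-- derivatives commute -/
theorem mk_comm {n : ℕ} (k l : Fin n) (i j : Fin 3) {v : Cf n → ℝ}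
    (hv : ContDiff ℝ (⊤ : ℕ∞) v) (x : Cf n) :
    dv k i (dv l j v) x = dv l j (dv k i v) x := by
  have hd : DifferentiableAt ℝ (fderiv ℝ v) x :=
    ((hv.fderiv_right (m := (⊤ : ℕ∞)) (by norm_num)).differentiable (by norm_num)) x
  have h1 : ∀ (a b : Cf n), fderiv ℝ (fun y => fderiv ℝ v y a) x b = fderiv ℝ (fderiv ℝ v) x b a := by
    intro a b
    rw [fderiv_clm_apply hd (differentiableAt_const a)]
    simp
  have hs : IsSymmSndFDerivAt ℝ v x := by
    apply (hv.contDiffAt (x := x)).isSymmSndFDerivAt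
    rw [minSmoothness_of_isRCLikeNormedField]
    exact WithTop.coe_le_coe.2 (le_top : (2 : ℕ∞) ≤ ⊤)
  show fderiv ℝ (fun y => fderiv ℝ v y (Pi.single l (Pi.single j 1))) x
      (Pi.single k (Pi.single i 1)) =
    fderiv ℝ (fun y => fderiv ℝ v y (Pi.single k (Pi.single i 1))) x (Pi.single l (Pi.single j 1))
  rw [h1, h1]
  exact hs _ _

theorem mk_dsum {n : ℕ} {ι : Type*} (T : Finset ι) (k : Fin n) (i : Fin 3) (f : ι → Cf n → ℝ)
    (hf : ∀ a ∈ T, Differentiable ℝ (f a)) (x : Cf n) :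
    dv k i (fun x => ∑ a ∈ T, f a x) x = ∑ a ∈ T, dv k i (f a) x := by
  unfold dv
  rw [fderiv_fun_sum (fun a ha => hf a ha x)]
  rw [_root_.sum_apply]

theorem mk_ev {n : ℕ} (g : R3 → ℝ) (hg : Differentiable ℝ g) (k l : Fin n) (i : Fin 3) (x : Cf n) :
    dv k i (fun x => g (x l)) x = if l = k then pd i g (x k) else 0 := by
  unfold dv pd
  rw [(hf_comp g hg l x).fderiv]
  by_cases h : l = k
  · subst h
    simp
  · simp [h]

theorem mk_ev_diff {n : ℕ} {g : R3 → ℝ} (hg : Differentiable ℝ g) (l : Fin n) :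
    Differentiable ℝ (fun x : Cf n => g (x l)) := fun x =>
  (hf_comp g hg l x).differentiableAt

theorem mk_pd_half {g : R3 → ℝ} (hg : Differentiable ℝ g) (i : Fin 3) (y : R3) :
    pd i (fun y => g y / 2) y = pd i g y / 2 := by
  unfold pd
  have h : (fun y => g y / 2) = fun y => (1 / 2 : ℝ) * g y := by
    funext y
    ring
  rw [h, fderiv_const_mul (hg y)]
  simp only [ContinuousLinearMap.smul_apply, smul_eq_mul]
  ring

/-- commutator of a derivative and `P_g` -/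
theorem mk_dP {n : ℕ} (g : R3 → ℝ) (hg : ContDiff ℝ (⊤ : ℕ∞) g) (v : Cf n → ℝ)
    (hv : ContDiff ℝ (⊤ : ℕ∞) v) (k : Fin n) (i : Fin 3) (x : Cf n) :
    dv k i (Pg g v) x = Pg g (dv k i v) x + ((∑ j, pd i (pd j g) (x k) * dv k j v x) +
      pd i (lap g) (x k) / 2 * v x) := by
  have hpd : ∀ j : Fin 3, Differentiable ℝ (pd j g) := fun j => hf_df (hf_cd hg _)
  have hdv : ∀ (l : Fin n) (j : Fin 3), Differentiable ℝ (dv l j v) := fun l j =>
    hf_df (hf_cd hv _)
  have hlap : Differentiable ℝ (lap g) := hf_df (Pool.Agent.Helper2.PW.stb_lap hg)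
  have hlap2 : Differentiable ℝ (fun y => lap g y / 2) := by
    simp only [div_eq_mul_inv]
    exact hlap.mul_const _
  have hvd := hf_df hv
  have e1 : ∀ l : Fin n, dv k i (fun x => (∑ j, pd j g (x l) * dv l j v x) +
      lap g (x l) / 2 * v x) x =
      ((∑ j, pd j g (x l) * dv l j (dv k i v) x) + lap g (x l) / 2 * dv k i v x) +
      if l = k then ((∑ j, pd i (pd j g) (x k) * dv k j v x) + pd i (lap g) (x k) / 2 * v x)
      else 0 := by
    intro l
    have d1 : ∀ j : Fin 3, Differentiable ℝ (fun x : Cf n => pd j g (x l) * dv l j v x) :=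
      fun j => (mk_ev_diff (hpd j) l).mul (hdv l j)
    have d2 : Differentiable ℝ (fun x : Cf n => ∑ j, pd j g (x l) * dv l j v x) :=
      Differentiable.fun_sum fun j _ => d1 j
    have d3 : Differentiable ℝ (fun x : Cf n => lap g (x l) / 2) := mk_ev_diff hlap2 l
    have d3' : Differentiable ℝ (fun x : Cf n => lap g (x l) / 2 * v x) := d3.mul hvd
    rw [hf_add k i x (d2 x) (d3' x), mk_dsum _ k i _ (fun j _ => d1 j),
      hf_mul k i x (d3 x) (hvd x)]
    have e2 : ∀ j : Fin 3, dv k i (fun x : Cf n => pd j g (x l) * dv l j v x) x =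
        (if l = k then pd i (pd j g) (x k) else 0) * dv l j v x +
          pd j g (x l) * dv l j (dv k i v) x := by
      intro j
      rw [hf_mul k i x (mk_ev_diff (hpd j) l x) (hdv l j x), mk_ev (pd j g) (hpd j) k l i x,
        mk_comm k l i j hv x]
    have e3 : dv k i (fun x : Cf n => lap g (x l) / 2) x =
        (if l = k then pd i (lap g) (x k) / 2 else 0) := by
      rw [mk_ev (fun y => lap g y / 2) hlap2 k l i x]
      by_cases h : l = k
      · simp only [h, if_true]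
        exact mk_pd_half hlap i (x k)
      · simp only [h, if_false]
    rw [e3, Finset.sum_congr rfl fun j _ => e2 j, Finset.sum_add_distrib]
    by_cases h : l = k
    · subst h
      simp only [if_true]
      ring
    · simp only [h, if_false, zero_mul, Finset.sum_const_zero]
      ring
  have d4 : ∀ l : Fin n, Differentiable ℝ (fun x : Cf n => (∑ j, pd j g (x l) * dv l j v x) +
      lap g (x l) / 2 * v x) := fun l =>
    (Differentiable.fun_sum fun j _ => (mk_ev_diff (hpd j) l).mul (hdv l j)).add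
      ((mk_ev_diff hlap2 l).mul hvd)
  have e5 := mk_dsum Finset.univ k i (fun (l : Fin n) (x : Cf n) =>
    (∑ j, pd j g (x l) * dv l j v x) + lap g (x l) / 2 * v x) (fun l _ => d4 l) x
  have e6 : dv k i (Pg g v) x = dv k i (fun x : Cf n => ∑ l : Fin n,
    ((∑ j, pd j g (x l) * dv l j v x) + lap g (x l) / 2 * v x)) x := rfl
  rw [e6, e5, Finset.sum_congr rfl fun l _ => e1 l, Finset.sum_add_distrib]
  congr 1
  simp

/-- `∫ h P_g h = 0` -/
theorem mk_skew {n : ℕ} (hP : ST_PAN) (g : R3 → ℝ) (hg : ContDiff ℝ (⊤ : ℕ∞) g) (h : Cf n → ℝ)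
    (hh : ContDiff ℝ (⊤ : ℕ∞) h) (hc : HasCompactSupport h) : ∫ x, h x * Pg g h x = 0 := by
  have h1 := hP n g h h hg hh hc hh
  have h2 : ∫ x, Pg g h x * h x = ∫ x, h x * Pg g h x := by
    congr 1
    funext x
    ring
  rw [h2] at h1
  linarith

theorem mk_int {n : ℕ} {f g : Cf n → ℝ} (hf : Continuous f) (hg : Continuous g)
    (hc : HasCompactSupport g) : Integrable (fun x => f x * g x) :=
  (hf.mul hg).integrable_of_hasCompactSupport hc.mul_left

/-- one direction -/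
theorem mk_one {n : ℕ} (hI : ST_IBP) (hP : ST_PAN) (g : R3 → ℝ) (hg : ContDiff ℝ (⊤ : ℕ∞) g)
    (v : Cf n → ℝ) (hv : ContDiff ℝ (⊤ : ℕ∞) v) (hc : HasCompactSupport v) (k : Fin n)
    (i : Fin 3) :
    -∫ x, dv k i (dv k i v) x * Pg g v x =
      (∫ x, ∑ j, pd i (pd j g) (x k) * (dv k i v x * dv k j v x)) -
        ∫ x, pd i (pd i (lap g)) (x k) / 4 * v x ^ 2 := by
  have hDv : ∀ j : Fin 3, ContDiff ℝ (⊤ : ℕ∞) (dv k j v) := fun j => hf_cd hv _
  have hDc : ∀ j : Fin 3, HasCompactSupport (dv k j v) := fun j =>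
    Pool.Agent.Helper2.PW.stb_cs_dv k j hc
  have hPg : ContDiff ℝ (⊤ : ℕ∞) (Pg g v) := Pool.Agent.Helper2.PW.stb_Pg hg hv
  have hgij : ∀ j : Fin 3, ContDiff ℝ (⊤ : ℕ∞) (fun x : Cf n => pd i (pd j g) (x k)) := fun j =>
    Pool.Agent.Helper2.PW.stb_ev k (Pool.Agent.Helper2.PW.stb_pd i
      (Pool.Agent.Helper2.PW.stb_pd j hg))
  have hlapg := Pool.Agent.Helper2.PW.stb_lap hg
  have hl1 : ContDiff ℝ (⊤ : ℕ∞) (fun x : Cf n => pd i (lap g) (x k)) :=
    Pool.Agent.Helper2.PW.stb_ev k (Pool.Agent.Helper2.PW.stb_pd i hlapg)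
  have e1 := hI n k i (dv k i v) (Pg g v) (hDv i) (hDc i) hPg
  rw [e1, neg_neg]
  have e2 : ∀ x, dv k i v x * dv k i (Pg g v) x =
      dv k i v x * Pg g (dv k i v) x +
      ((∑ j, pd i (pd j g) (x k) * (dv k i v x * dv k j v x)) +
      (pd i (lap g) (x k) / 2 * v x) * dv k i v x) := by
    intro x
    rw [mk_dP g hg v hv k i x, mul_add, mul_add, Finset.mul_sum]
    congr 1
    congr 1
    · refine Finset.sum_congr rfl fun j _ => ?_
      ring
    · ring
  have i1 : Integrable (fun x => dv k i v x * Pg g (dv k i v) x) :=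
    mk_int (hDv i).continuous (Pool.Agent.Helper2.PW.stb_Pg hg (hDv i)).continuous
      (Pool.Agent.Helper2.PW.stb_cs_Pg (hDc i))
  have i2 : Integrable (fun x => ∑ j, pd i (pd j g) (x k) * (dv k i v x * dv k j v x)) := by
    apply integrable_finsetSum
    intro j _
    exact mk_int (hgij j).continuous ((hDv i).continuous.mul (hDv j).continuous)
      (hDc j).mul_left
  have i3 : Integrable (fun x => (pd i (lap g) (x k) / 2 * v x) * dv k i v x) :=
    mk_int ((hl1.continuous.div_const 2).mul hv.continuous) (hDv i).continuous (hDc i)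
  have e3 : ∫ x, dv k i v x * dv k i (Pg g v) x =
      (∫ x, dv k i v x * Pg g (dv k i v) x) +
      ((∫ x, ∑ j, pd i (pd j g) (x k) * (dv k i v x * dv k j v x)) +
      ∫ x, (pd i (lap g) (x k) / 2 * v x) * dv k i v x) := by
    rw [integral_congr_ae (Eventually.of_forall e2)]
    exact (integral_add i1 (i2.add i3)).trans (congrArg _ (integral_add i2 i3))
  rw [e3, mk_skew hP g hg (dv k i v) (hDv i) (hDc i), zero_add]
  have e4 : ∫ x, (pd i (lap g) (x k) / 2 * v x) * dv k i v x =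
      -∫ x, pd i (pd i (lap g)) (x k) / 4 * v x ^ 2 := by
    have e5 := hI n k i (fun x => v x * v x) (fun x => pd i (lap g) (x k)) (hv.mul hv)
      hc.mul_left hl1
    have e6 : ∀ x, dv k i (fun x => v x * v x) x * pd i (lap g) (x k) =
        4 * ((pd i (lap g) (x k) / 2 * v x) * dv k i v x) := by
      intro x
      rw [hf_mul k i x (hf_df hv x) (hf_df hv x)]
      ring
    have e7 : ∀ x, v x * v x * dv k i (fun x => pd i (lap g) (x k)) x =
        4 * (pd i (pd i (lap g)) (x k) / 4 * v x ^ 2) := by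
      intro x
      rw [hf_one (pd i (lap g)) (hf_df (hf_cd hlapg _)) k i x]
      ring
    rw [integral_congr_ae (Eventually.of_forall e6),
      integral_congr_ae (Eventually.of_forall e7), integral_const_mul, integral_const_mul] at e5
    linarith
  rw [e4]
  ring

/-- the kinetic identity -/
theorem mk_id {n : ℕ} (hI : ST_IBP) (hP : ST_PAN) (g : R3 → ℝ) (hg : ContDiff ℝ (⊤ : ℕ∞) g)
    (v : Cf n → ℝ) (hv : ContDiff ℝ (⊤ : ℕ∞) v) (hc : HasCompactSupport v) :
    -2 * ∫ x, (∑ k, ∑ i, dv k i (dv k i v) x) * Pg g v x =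
      2 * (∫ x, ∑ k, ∑ i, ∑ j, pd i (pd j g) (x k) * (dv k i v x * dv k j v x)) +
        ∫ x, (∑ k, -(1 / 2) * lap (lap g) (x k)) * v x ^ 2 := by
  have hDv : ∀ (k : Fin n) (j : Fin 3), ContDiff ℝ (⊤ : ℕ∞) (dv k j v) := fun k j => hf_cd hv _
  have hDc : ∀ (k : Fin n) (j : Fin 3), HasCompactSupport (dv k j v) := fun k j =>
    Pool.Agent.Helper2.PW.stb_cs_dv k j hc
  have hDD : ∀ (k : Fin n) (j : Fin 3), ContDiff ℝ (⊤ : ℕ∞) (dv k j (dv k j v)) := fun k j =>
    hf_cd (hDv k j) _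
  have hDDc : ∀ (k : Fin n) (j : Fin 3), HasCompactSupport (dv k j (dv k j v)) := fun k j =>
    Pool.Agent.Helper2.PW.stb_cs_dv k j (hDc k j)
  have hPg : ContDiff ℝ (⊤ : ℕ∞) (Pg g v) := Pool.Agent.Helper2.PW.stb_Pg hg hv
  have hPc : HasCompactSupport (Pg g v) := Pool.Agent.Helper2.PW.stb_cs_Pg hc
  have hgij : ∀ (k : Fin n) (i j : Fin 3),
      ContDiff ℝ (⊤ : ℕ∞) (fun x : Cf n => pd i (pd j g) (x k)) := fun k i j =>
    Pool.Agent.Helper2.PW.stb_ev k (Pool.Agent.Helper2.PW.stb_pd i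
      (Pool.Agent.Helper2.PW.stb_pd j hg))
  have hlapg := Pool.Agent.Helper2.PW.stb_lap hg
  have hl2 : ∀ (k : Fin n) (i : Fin 3),
      ContDiff ℝ (⊤ : ℕ∞) (fun x : Cf n => pd i (pd i (lap g)) (x k)) := fun k i =>
    Pool.Agent.Helper2.PW.stb_ev k (Pool.Agent.Helper2.PW.stb_pd i
      (Pool.Agent.Helper2.PW.stb_pd i hlapg))
  have j1 : ∀ (k : Fin n) (i : Fin 3), Integrable (fun x => dv k i (dv k i v) x * Pg g v x) :=
    fun k i => mk_int (hDD k i).continuous hPg.continuous hPc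
  have j2 : ∀ (k : Fin n) (i : Fin 3), Integrable (fun x : Cf n =>
      ∑ j, pd i (pd j g) (x k) * (dv k i v x * dv k j v x)) := by
    intro k i
    apply integrable_finsetSum
    intro j _
    exact mk_int (hgij k i j).continuous ((hDv k i).continuous.mul (hDv k j).continuous)
      (hDc k j).mul_left
  have j3 : ∀ (k : Fin n) (i : Fin 3), Integrable (fun x : Cf n =>
      pd i (pd i (lap g)) (x k) / 4 * v x ^ 2) := by
    intro k i
    have hc2 : HasCompactSupport (fun x => v x ^ 2) := by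
      have : (fun x => v x ^ 2) = fun x => v x * v x := by
        funext x
        ring
      rw [this]
      exact hc.mul_left
    exact mk_int ((hl2 k i).continuous.div_const 4) (hv.continuous.pow 2) hc2
  have e1 : ∀ x, (∑ k, ∑ i, dv k i (dv k i v) x) * Pg g v x =
      ∑ k, ∑ i, dv k i (dv k i v) x * Pg g v x := by
    intro x
    rw [Finset.sum_mul]
    refine Finset.sum_congr rfl fun k _ => ?_
    rw [Finset.sum_mul]
  have e2 : ∀ x : Cf n, (∑ k, -(1 / 2) * lap (lap g) (x k)) * v x ^ 2 =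
      ∑ k, ∑ i, -2 * (pd i (pd i (lap g)) (x k) / 4 * v x ^ 2) := by
    intro x
    rw [Finset.sum_mul]
    refine Finset.sum_congr rfl fun k _ => ?_
    have : lap (lap g) (x k) = ∑ i, pd i (pd i (lap g)) (x k) := rfl
    rw [this, Finset.mul_sum, Finset.sum_mul]
    refine Finset.sum_congr rfl fun i _ => ?_
    ring
  rw [integral_congr_ae (Eventually.of_forall e1), integral_congr_ae (Eventually.of_forall e2),
    integral_finsetSum _ (fun k _ => integrable_finsetSum _ fun i _ => j1 k i),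
    integral_finsetSum _ (fun k _ => integrable_finsetSum _ fun i _ => j2 k i),
    integral_finsetSum _ (fun k _ => integrable_finsetSum _ fun i _ => (j3 k i).const_mul (-2)),
    Finset.mul_sum, Finset.mul_sum, ← Finset.sum_add_distrib]
  refine Finset.sum_congr rfl fun k _ => ?_
  rw [integral_finsetSum _ (fun i _ => j1 k i), integral_finsetSum _ (fun i _ => j2 k i),
    integral_finsetSum _ (fun i _ => (j3 k i).const_mul (-2)), Finset.mul_sum, Finset.mul_sum,
    ← Finset.sum_add_distrib]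
  refine Finset.sum_congr rfl fun i _ => ?_
  have h := mk_one hI hP g hg v hv hc k i
  rw [integral_const_mul]
  linarith

/-! ### the function `sqrt (|y|^2 + s^2)` -/

/-- `|y|^2 + s^2` -/
def mq (s : ℝ) (y : R3) : ℝ := y 0 ^ 2 + y 1 ^ 2 + y 2 ^ 2 + s ^ 2

theorem mq_pos {s : ℝ} (hs : 0 < s) (y : R3) : 0 < mq s y := by
  unfold mq
  positivity

theorem mq_cd (s : ℝ) : ContDiff ℝ (⊤ : ℕ∞) (mq s) := by
  unfold mq
  fun_prop

theorem mq_pow_cd {s : ℝ} (hs : 0 < s) (p : ℝ) : ContDiff ℝ (⊤ : ℕ∞) (fun y => mq s y ^ p) :=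
  (mq_cd s).rpow_const_of_ne (fun y => (mq_pos hs y).ne')

theorem mp_add {a b : R3 → ℝ} (i : Fin 3) (y : R3) (ha : DifferentiableAt ℝ a y)
    (hb : DifferentiableAt ℝ b y) : pd i (fun y => a y + b y) y = pd i a y + pd i b y := by
  unfold pd
  rw [fderiv_fun_add ha hb]
  simp only [ContinuousLinearMap.add_apply]

theorem mp_mul {a b : R3 → ℝ} (i : Fin 3) (y : R3) (ha : DifferentiableAt ℝ a y)
    (hb : DifferentiableAt ℝ b y) :
    pd i (fun y => a y * b y) y = pd i a y * b y + a y * pd i b y := by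
  unfold pd
  rw [fderiv_fun_mul ha hb]
  simp only [ContinuousLinearMap.add_apply, ContinuousLinearMap.smul_apply, smul_eq_mul]
  ring

theorem mp_coord (i j : Fin 3) (y : R3) : pd i (fun y : R3 => y j) y = if j = i then 1 else 0 := by
  unfold pd
  have h : HasFDerivAt (fun y : R3 => y j)
      (ContinuousLinearMap.proj (R := ℝ) (φ := fun _ : Fin 3 => ℝ) j) y :=
    (ContinuousLinearMap.proj (R := ℝ) (φ := fun _ : Fin 3 => ℝ) j).hasFDerivAt
  rw [h.fderiv]
  simp [Pi.single_apply]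

theorem mp_const_mul {a : R3 → ℝ} (c : ℝ) (i : Fin 3) (y : R3) (ha : DifferentiableAt ℝ a y) :
    pd i (fun y => c * a y) y = c * pd i a y := by
  unfold pd
  rw [fderiv_const_mul ha]
  simp only [ContinuousLinearMap.smul_apply, smul_eq_mul]

theorem mp_coord_diff (j : Fin 3) (y : R3) : DifferentiableAt ℝ (fun y : R3 => y j) y := by
  fun_prop

theorem mq_pd (s : ℝ) (i : Fin 3) (y : R3) : pd i (mq s) y = 2 * y i := by
  have h : mq s = fun y : R3 => ((y 0 * y 0 + y 1 * y 1) + y 2 * y 2) + s ^ 2 := by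
    funext y
    unfold mq
    ring
  have h0 : ∀ j : Fin 3, pd i (fun y : R3 => y j * y j) y = 2 * (if j = i then y i else 0) := by
    intro j
    rw [mp_mul i y (mp_coord_diff j y) (mp_coord_diff j y), mp_coord]
    by_cases hj : j = i
    · subst hj
      simp
      ring
    · simp [hj]
  have hc : pd i (fun _ : R3 => s ^ 2) y = 0 := by
    unfold pd
    simp
  rw [h, mp_add i y (by fun_prop) (by fun_prop), mp_add i y (by fun_prop) (by fun_prop),
    mp_add i y (by fun_prop) (by fun_prop), h0, h0, h0, hc]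
  fin_cases i <;> simp

theorem mq_pd_pow {s : ℝ} (hs : 0 < s) (p : ℝ) (i : Fin 3) (y : R3) :
    pd i (fun y => mq s y ^ p) y = 2 * p * (y i * mq s y ^ (p - 1)) := by
  have h1 : HasFDerivAt (mq s) (fderiv ℝ (mq s) y) y :=
    ((mq_cd s).differentiable (by norm_num) y).hasFDerivAt
  have h2 := h1.rpow_const (p := p) (Or.inl (mq_pos hs y).ne')
  have h3 : pd i (fun y => mq s y ^ p) y = (p * mq s y ^ (p - 1)) * pd i (mq s) y := by
    unfold pd
    rw [h2.fderiv]
    simp only [ContinuousLinearMap.smul_apply, smul_eq_mul]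
  rw [h3, mq_pd]
  ring

theorem mq_pd2 {s : ℝ} (hs : 0 < s) (p : ℝ) (i j : Fin 3) (y : R3) :
    pd i (pd j (fun y => mq s y ^ p)) y =
      2 * p * ((if j = i then mq s y ^ (p - 1) else 0) +
        2 * (p - 1) * (y i * y j * mq s y ^ (p - 1 - 1))) := by
  have h1 : pd j (fun y => mq s y ^ p) = fun y => 2 * p * (y j * mq s y ^ (p - 1)) := by
    funext y
    exact mq_pd_pow hs p j y
  have hd : DifferentiableAt ℝ (fun y => mq s y ^ (p - 1)) y :=
    (mq_pow_cd hs (p - 1)).differentiable (by norm_num) y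
  rw [h1, mp_const_mul (a := fun y => y j * mq s y ^ (p - 1)) _ i y
    ((mp_coord_diff j y).mul hd), mp_mul i y (mp_coord_diff j y) hd,
    mp_coord, mq_pd_pow hs (p - 1) i y]
  by_cases hj : j = i
  · simp only [hj, if_true]
    ring
  · simp only [hj, if_false]
    ring

theorem mq_lap {s : ℝ} (hs : 0 < s) (p : ℝ) (y : R3) :
    lap (fun y => mq s y ^ p) y =
      2 * p * (2 * p + 1) * mq s y ^ (p - 1) - 4 * p * (p - 1) * s ^ 2 * mq s y ^ (p - 1 - 1) := by
  have h1 : mq s y ^ (p - 1) = mq s y * mq s y ^ (p - 1 - 1) := by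
    have h2 := Real.rpow_add (mq_pos hs y) 1 (p - 1 - 1)
    rw [Real.rpow_one] at h2
    rw [← h2]
    congr 1
    ring
  have h3 : y 0 ^ 2 + y 1 ^ 2 + y 2 ^ 2 = mq s y - s ^ 2 := by
    unfold mq
    ring
  have h4 : lap (fun y => mq s y ^ p) y = ∑ i, pd i (pd i (fun y => mq s y ^ p)) y := rfl
  rw [h4, Fin.sum_univ_three, mq_pd2 hs, mq_pd2 hs, mq_pd2 hs]
  simp only [if_true]
  have h5 : 2 * p * (mq s y ^ (p - 1) + 2 * (p - 1) * (y 0 * y 0 * mq s y ^ (p - 1 - 1))) +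
      2 * p * (mq s y ^ (p - 1) + 2 * (p - 1) * (y 1 * y 1 * mq s y ^ (p - 1 - 1))) +
      2 * p * (mq s y ^ (p - 1) + 2 * (p - 1) * (y 2 * y 2 * mq s y ^ (p - 1 - 1))) =
      6 * p * mq s y ^ (p - 1) +
        4 * p * (p - 1) * ((y 0 ^ 2 + y 1 ^ 2 + y 2 ^ 2) * mq s y ^ (p - 1 - 1)) := by
    ring
  rw [h5, h3, sub_mul, ← h1]
  ring

/-- the function of the row MOR -/
noncomputable def mw (s : ℝ) (y : R3) : ℝ := mq s y ^ (1 / 2 : ℝ)

theorem mw_cd {s : ℝ} (hs : 0 < s) : ContDiff ℝ (⊤ : ℕ∞) (mw s) := mq_pow_cd hs _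

theorem mw_lap {s : ℝ} (hs : 0 < s) (y : R3) :
    lap (mw s) y = 2 * mq s y ^ (-(1 / 2) : ℝ) + s ^ 2 * mq s y ^ (-(3 / 2) : ℝ) := by
  have h := mq_lap hs (1 / 2) y
  have h2 : lap (mw s) y = lap (fun y => mq s y ^ (1 / 2 : ℝ)) y := rfl
  rw [h2, h]
  norm_num

theorem mw_lap2 {s : ℝ} (hs : 0 < s) (y : R3) :
    lap (lap (mw s)) y = -15 * s ^ 4 * mq s y ^ (-(7 / 2) : ℝ) := by
  have h0 : lap (mw s) = fun y => 2 * mq s y ^ (-(1 / 2) : ℝ) + s ^ 2 * mq s y ^ (-(3 / 2) : ℝ) := by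
    funext y
    exact mw_lap hs y
  have c1 := mq_pow_cd hs (-(1 / 2))
  have c2 := mq_pow_cd hs (-(3 / 2))
  have h1 : ∀ i : Fin 3, pd i (pd i (lap (mw s))) y =
      2 * pd i (pd i (fun y => mq s y ^ (-(1 / 2) : ℝ))) y +
        s ^ 2 * pd i (pd i (fun y => mq s y ^ (-(3 / 2) : ℝ))) y := by
    intro i
    have h2 : pd i (lap (mw s)) = fun y => 2 * pd i (fun y => mq s y ^ (-(1 / 2) : ℝ)) y +
        s ^ 2 * pd i (fun y => mq s y ^ (-(3 / 2) : ℝ)) y := by
      funext z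
      rw [h0, mp_add i z ((c1.differentiable (by norm_num) z).const_mul 2)
        ((c2.differentiable (by norm_num) z).const_mul (s ^ 2)),
        mp_const_mul _ i z (c1.differentiable (by norm_num) z),
        mp_const_mul _ i z (c2.differentiable (by norm_num) z)]
    have d1 : DifferentiableAt ℝ (pd i (fun y => mq s y ^ (-(1 / 2) : ℝ))) y :=
      hf_df (hf_cd c1 _) y
    have d2 : DifferentiableAt ℝ (pd i (fun y => mq s y ^ (-(3 / 2) : ℝ))) y :=
      hf_df (hf_cd c2 _) y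
    rw [h2, mp_add i y (d1.const_mul 2) (d2.const_mul (s ^ 2)), mp_const_mul _ i y d1,
      mp_const_mul _ i y d2]
  have h4 : lap (lap (mw s)) y = ∑ i, pd i (pd i (lap (mw s))) y := rfl
  have h5 : ∑ i, pd i (pd i (fun y => mq s y ^ (-(1 / 2) : ℝ))) y =
    lap (fun y => mq s y ^ (-(1 / 2) : ℝ)) y := rfl
  have h6 : ∑ i, pd i (pd i (fun y => mq s y ^ (-(3 / 2) : ℝ))) y =
    lap (fun y => mq s y ^ (-(3 / 2) : ℝ)) y := rfl
  rw [h4, Finset.sum_congr rfl fun i _ => h1 i, Finset.sum_add_distrib, ← Finset.mul_sum,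
    ← Finset.mul_sum, h5, h6, mq_lap hs, mq_lap hs]
  norm_num
  ring

theorem mw_mor {s : ℝ} (hs : 0 < s) (y : R3) : -(1 / 2) * lap (lap (mw s)) y = mor s y := by
  have h1 : nr y ^ 2 + s ^ 2 = mq s y := by
    unfold nr mq
    rw [Real.sq_sqrt (by positivity)]
  rw [mw_lap2 hs, mor, h1, Real.rpow_neg (mq_pos hs y).le]
  field_simp

theorem mw_hess {s : ℝ} (hs : 0 < s) (y : R3) (a : Fin 3 → ℝ) :
    0 ≤ ∑ i, ∑ j, pd i (pd j (mw s)) y * (a i * a j) := by
  have h1 : ∀ i j : Fin 3, pd i (pd j (mw s)) y = (if j = i then mq s y ^ (-(1 / 2) : ℝ) else 0) -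
      y i * y j * mq s y ^ (-(3 / 2) : ℝ) := by
    intro i j
    have h := mq_pd2 hs (1 / 2) i j y
    have h2 : pd i (pd j (mw s)) y = pd i (pd j (fun y => mq s y ^ (1 / 2 : ℝ))) y := rfl
    rw [h2, h]
    norm_num
    ring
  have h2 : mq s y ^ (-(1 / 2) : ℝ) = mq s y * mq s y ^ (-(3 / 2) : ℝ) := by
    have h3 := Real.rpow_add (mq_pos hs y) 1 (-(3 / 2))
    rw [Real.rpow_one] at h3
    rw [← h3]
    norm_num
  have h4 : 0 ≤ mq s y ^ (-(3 / 2) : ℝ) := (Real.rpow_pos_of_pos (mq_pos hs y) _).le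
  have h5 : ∑ i, ∑ j, pd i (pd j (mw s)) y * (a i * a j) =
      mq s y ^ (-(3 / 2) : ℝ) * (mq s y * (a 0 ^ 2 + a 1 ^ 2 + a 2 ^ 2) -
        (y 0 * a 0 + y 1 * a 1 + y 2 * a 2) ^ 2) := by
    simp only [Fin.sum_univ_three, h1, h2]
    norm_num [Fin.ext_iff]
    ring
  rw [h5]
  apply mul_nonneg h4
  unfold mq
  nlinarith [sq_nonneg (y 0 * a 1 - y 1 * a 0), sq_nonneg (y 0 * a 2 - y 2 * a 0),
    sq_nonneg (y 1 * a 2 - y 2 * a 1), mul_nonneg (sq_nonneg s)
      (add_nonneg (add_nonneg (sq_nonneg (a 0)) (sq_nonneg (a 1))) (sq_nonneg (a 2)))]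

/-- kinetic part of the row MOR -/
theorem mor_kin {n : ℕ} (hI : ST_IBP) (hP : ST_PAN) (s : ℝ) (hs : 0 < s)
    (v : Cf n → ℝ) (hv : ContDiff ℝ (⊤ : ℕ∞) v) (hc : HasCompactSupport v) :
    ∫ x, (∑ k, mor s (x k)) * v x ^ 2 ≤
      -2 * ∫ x, (∑ k, ∑ i, dv k i (dv k i v) x) * Pg (mw s) v x := by
  rw [mk_id hI hP (mw s) (mw_cd hs) v hv hc]
  have h1 : ∀ x : Cf n, (∑ k, -(1 / 2) * lap (lap (mw s)) (x k)) * v x ^ 2 =
      (∑ k, mor s (x k)) * v x ^ 2 := by
    intro x
    rw [Finset.sum_congr rfl fun k _ => mw_mor hs (x k)]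
  have h2 : 0 ≤ ∫ x, ∑ k, ∑ i, ∑ j, pd i (pd j (mw s)) (x k) * (dv k i v x * dv k j v x) := by
    apply integral_nonneg
    intro x
    exact Finset.sum_nonneg fun k _ => mw_hess hs (x k) (fun i => dv k i v x)
  rw [integral_congr_ae (Eventually.of_forall h1)]
  linarith

theorem mw_eq (s : ℝ) : mw s = fun y => Real.sqrt (nr y ^ 2 + s ^ 2) := by
  funext y
  have h1 : nr y ^ 2 + s ^ 2 = mq s y := by
    unfold nr mq
    rw [Real.sq_sqrt (by positivity)]
  rw [mw, h1, Real.sqrt_eq_rpow]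

/-- kinetic part of the row MOR -/
theorem morA {n : ℕ} (hI : ST_IBP) (hP : ST_PAN) (s : ℝ) (hs : 0 < s)
    (v : Cf n → ℝ) (hv : ContDiff ℝ (⊤ : ℕ∞) v) (hc : HasCompactSupport v) :
    ∫ x, (∑ k, mor s (x k)) * v x ^ 2 ≤
      -2 * ∫ x, (∑ k, ∑ i, dv k i (dv k i v) x) *
        Pg (fun y => Real.sqrt (nr y ^ 2 + s ^ 2)) v x := by
  rw [← mw_eq s]
  exact mor_kin hI hP s hs v hv hc

end Pool.Agent.Helper26.PW
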